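import Pool.Agent.D71.Defs
import Pool.Agent.Helper819.ZA.LemmaA
import Pool.Agent.Helper819.ZA.Max

set_option autoImplicit false

namespace D71

open ZA

variable {k K : Type} [Field k] [Field K] [Algebra k K]

theorem mem_Spec_iff (A O : Subalgebra k K) :
    O ∈ Spec A ↔ Lc O.toSubring ∧ Is A O.toSubring := by
  constructor
  · rintro ⟨P, hP, h⟩
    have hA : ∀ x ∈ A, x ∈ O := fun x hx =>
      (h x).2 ⟨⟨x, hx⟩, 1, (Ideal.ne_top_iff_one P).1 hP.ne_top, by simp⟩
    have hinv : ∀ s : A, s ∉ P → (s : K)⁻¹ ∈ O := fun s hs => by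
      have hs0 : (s : K) ≠ 0 := by
        intro h0
        apply hs
        have : s = 0 := Subtype.ext h0
        rw [this]
        exact P.zero_mem
      exact (h _).2 ⟨1, s, hs, by simp [hs0]⟩
    have hne : ∀ s : A, s ∉ P → (s : K) ≠ 0 := fun s hs h0 => by
      apply hs
      have : s = 0 := Subtype.ext h0
      rw [this]
      exact P.zero_mem
    refine ⟨?_, hA, ?_⟩
    · intro x hx y hy hxy hxyi
      obtain ⟨a, s, hs, has⟩ := (h x).1 hx
      obtain ⟨b, t, ht, hbt⟩ := (h y).1 hy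
      obtain ⟨c, u, hu, hcu⟩ := (h _).1 hxyi
      by_cases ha : a ∈ P
      · by_cases hb : b ∈ P
        · exfalso
          have h1 : u * s * t = c * (a * t + b * s) := by
            apply Subtype.ext
            push_cast
            rw [← hcu, ← has, ← hbt]
            field_simp
          have h2 : u * s * t ∈ P := by
            rw [h1]
            exact P.mul_mem_left _ (P.add_mem (P.mul_mem_right _ ha) (P.mul_mem_right _ hb))
          rcases hP.mem_or_mem h2 with h3 | h3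
          · rcases hP.mem_or_mem h3 with h4 | h4
            · exact hu h4
            · exact hs h4
          · exact ht h3
        · right
          have hb0 := hne b hb
          refine ⟨fun h0 => hb0 (by rw [← hbt, h0, zero_mul]), ?_⟩
          have : y⁻¹ = (t : K) * (b : K)⁻¹ := by
            have ht0 := hne t ht
            have hy0 : y ≠ 0 := fun h0 => hb0 (by rw [← hbt, h0, zero_mul])
            rw [← hbt]
            field_simp
          show y⁻¹ ∈ O
          rw [this]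
          exact O.mul_mem (hA _ t.2) (hinv b hb)
      · left
        have ha0 := hne a ha
        refine ⟨fun h0 => ha0 (by rw [← has, h0, zero_mul]), ?_⟩
        have : x⁻¹ = (s : K) * (a : K)⁻¹ := by
          have hs0 := hne s hs
          have hx0 : x ≠ 0 := fun h0 => ha0 (by rw [← has, h0, zero_mul])
          rw [← has]
          field_simp
        show x⁻¹ ∈ O
        rw [this]
        exact O.mul_mem (hA _ s.2) (hinv a ha)
    · intro z hz
      obtain ⟨a, s, hs, has⟩ := (h z).1 hz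
      exact ⟨s, s.2, hne s hs, hinv s hs, by rw [has]; exact a.2⟩
  · rintro ⟨hl, hA, hI⟩
    refine ⟨{ carrier := {a | (a : K) = 0 ∨ (a : K)⁻¹ ∉ O}
              add_mem' := ?_, zero_mem' := Or.inl rfl, smul_mem' := ?_ }, ?_, ?_⟩
    · intro a b ha hb
      by_cases h0 : ((a + b : A) : K) = 0
      · exact Or.inl h0
      right
      intro h1
      rcases hl a (hA a a.2) b (hA b b.2) (by simpa using h0) (by simpa using h1) with h | h
      · rcases ha with ha | ha
        · exact h.1 ha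
        · exact ha h.2
      · rcases hb with hb | hb
        · exact h.1 hb
        · exact hb h.2
    · intro c a ha
      by_cases h0 : ((c • a : A) : K) = 0
      · exact Or.inl h0
      right
      intro h1
      have hc : ((c • a : A) : K) = (c : K) * (a : K) := rfl
      rw [hc] at h0 h1
      have hc0 : (c : K) ≠ 0 := left_ne_zero_of_mul h0
      have ha0 : (a : K) ≠ 0 := right_ne_zero_of_mul h0
      rcases ha with ha | ha
      · exact ha0 ha
      · apply ha
        have : (a : K)⁻¹ = (c : K) * ((c : K) * (a : K))⁻¹ := by field_simp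
        rw [this]
        exact O.mul_mem (hA c c.2) h1
    · refine ⟨?_, ?_⟩
      · rw [Ideal.ne_top_iff_one]
        rintro (h | h)
        · simp at h
        · apply h
          simp
      · intro a b hab
        by_contra hcon
        push Not at hcon
        obtain ⟨ha, hb⟩ := hcon
        have ha' : (a : K) ≠ 0 ∧ (a : K)⁻¹ ∈ O := by
          constructor
          · exact fun h0 => ha (Or.inl h0)
          · by_contra h0
            exact ha (Or.inr h0)
        have hb' : (b : K) ≠ 0 ∧ (b : K)⁻¹ ∈ O := by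
          constructor
          · exact fun h0 => hb (Or.inl h0)
          · by_contra h0
            exact hb (Or.inr h0)
        rcases hab with h | h
        · exact (mul_ne_zero ha'.1 hb'.1) h
        · apply h
          have : ((a * b : A) : K)⁻¹ = (a : K)⁻¹ * (b : K)⁻¹ := by
            push_cast
            rw [mul_inv]
          rw [this]
          exact O.mul_mem ha'.2 hb'.2
    · intro x
      constructor
      · intro hx
        obtain ⟨s, hs, hs0, hsi, hxs⟩ := hI x hx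
        refine ⟨⟨x * s, hxs⟩, ⟨s, hs⟩, ?_, rfl⟩
        rintro (h | h)
        · exact hs0 h
        · exact h hsi
      · rintro ⟨a, s, hs, h⟩
        have hs' : (s : K) ≠ 0 ∧ (s : K)⁻¹ ∈ O := by
          constructor
          · exact fun h0 => hs (Or.inl h0)
          · by_contra h0
            exact hs (Or.inr h0)
        have : x = (a : K) * (s : K)⁻¹ := by
          rw [← h, mul_assoc, mul_inv_cancel₀ hs'.1, mul_one]
        rw [this]
        exact O.mul_mem (hA a a.2) hs'.2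

theorem exists_subalg (A : Subalgebra k K) (O : Subring K) (h : Is A O) :
    ∃ O' : Subalgebra k K, O'.toSubring = O :=
  ⟨{ O with algebraMap_mem' := fun c => h.1 _ (A.algebraMap_mem c) }, rfl⟩

theorem toSubring_inj {O O' : Subalgebra k K} (h : O.toSubring = O'.toSubring) : O = O' := by
  ext x
  have : x ∈ O.toSubring ↔ x ∈ O'.toSubring := by rw [h]
  exact this

theorem dominates_iff (V : ValuationSubring K) (O : Subalgebra k K) :
    Dominates V O ↔ Dom V O.toSubring := Iff.rfl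

/-- the local ring of `Spec A` dominated by `V ⊇ A` -/
theorem spec_of_dom (A : Subalgebra k K) (V : ValuationSubring K) (hAV : ∀ x ∈ A, x ∈ V) :
    ∃ O ∈ Spec A, Dominates V O := by
  have hk : ∀ c : k, algebraMap k K c ∈ V := fun c => hAV _ (A.algebraMap_mem c)
  let Z : Subalgebra k K :=
    { carrier := {z | ∃ x ∈ A, ∃ s ∈ A, s ≠ 0 ∧ s⁻¹ ∈ V ∧ z * s = x}
      mul_mem' := by
        rintro a b ⟨x, hx, s, hs, h0, hv, he⟩ ⟨x', hx', s', hs', h0', hv', he'⟩
        refine ⟨x * x', A.mul_mem hx hx', s * s', A.mul_mem hs hs', mul_ne_zero h0 h0', ?_, ?_⟩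
        · rw [mul_inv]; exact V.mul_mem _ _ hv hv'
        · rw [← he, ← he']; ring
      add_mem' := by
        rintro a b ⟨x, hx, s, hs, h0, hv, he⟩ ⟨x', hx', s', hs', h0', hv', he'⟩
        refine ⟨x * s' + x' * s, A.add_mem (A.mul_mem hx hs') (A.mul_mem hx' hs), s * s',
          A.mul_mem hs hs', mul_ne_zero h0 h0', ?_, ?_⟩
        · rw [mul_inv]; exact V.mul_mem _ _ hv hv'
        · rw [← he, ← he']; ring
      algebraMap_mem' := fun c =>
        ⟨_, A.algebraMap_mem c, 1, A.one_mem, one_ne_zero, by rw [inv_one]; exact V.one_mem, by ring⟩ }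
  have hZdef : ∀ z, z ∈ Z ↔ ∃ x ∈ A, ∃ s ∈ A, s ≠ 0 ∧ s⁻¹ ∈ V ∧ z * s = x := fun z => Iff.rfl
  have hZV : ∀ z ∈ Z, z ∈ V := by
    rintro z ⟨x, hx, s, hs, h0, hv, he⟩
    have : z = x * s⁻¹ := by rw [← he, mul_assoc, mul_inv_cancel₀ h0, mul_one]
    rw [this]
    exact V.mul_mem _ _ (hAV x hx) hv
  have hinv : ∀ z ∈ Z, z⁻¹ ∈ V → z⁻¹ ∈ Z := by
    rintro z ⟨x, hx, s, hs, h0, hv, he⟩ hzi
    by_cases hz0 : z = 0
    · rw [hz0, inv_zero]; exact Z.zero_mem
    have hx0 : x ≠ 0 := by rw [← he]; exact mul_ne_zero hz0 h0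
    refine (hZdef _).2 ⟨s, hs, x, hx, hx0, ?_, ?_⟩
    · rw [← he, mul_inv]
      exact V.mul_mem _ _ hzi hv
    · rw [← he]; field_simp
  have hAZ : ∀ x ∈ A, x ∈ Z := fun x hx => (hZdef x).2
    ⟨x, hx, 1, A.one_mem, one_ne_zero, by rw [inv_one]; exact V.one_mem, by ring⟩
  refine ⟨Z, (mem_Spec_iff A Z).2 ⟨?_, hAZ, ?_⟩, hZV, hinv⟩
  · intro x hx y hy hxy hxyi
    have hxV := hZV x hx
    have hyV := hZV y hy
    have hxyV := hZV _ hxyi
    -- one of x/(x+y), y/(x+y) is a unit in V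
    by_contra hcon
    push Not at hcon
    obtain ⟨h1, h2⟩ := hcon
    have hx' : x ≠ 0 → x⁻¹ ∉ V := fun h0 h => h1 h0 (hinv x hx h)
    have hy' : y ≠ 0 → y⁻¹ ∉ V := fun h0 h => h2 h0 (hinv y hy h)
    by_cases hx0 : x = 0
    · subst hx0
      rw [zero_add] at hxy hxyi
      exact hy' hxy (hZV _ hxyi)
    by_cases hy0 : y = 0
    · subst hy0
      rw [add_zero] at hxy hxyi
      exact hx' hxy (hZV _ hxyi)
    rcases V.mem_or_inv_mem (x / y) with h | h
    · -- x / y ∈ V : y⁻¹ = (x+y)⁻¹ * (x/y + 1)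
      apply hy' hy0
      have : y⁻¹ = (x + y)⁻¹ * (x / y + 1) := by field_simp
      rw [this]
      exact V.mul_mem _ _ hxyV (V.add_mem _ _ h V.one_mem)
    · apply hx' hx0
      have : x⁻¹ = (x + y)⁻¹ * ((x / y)⁻¹ + 1) := by
        field_simp
        ring
      rw [this]
      exact V.mul_mem _ _ hxyV (V.add_mem _ _ h V.one_mem)
  · intro z hz
    obtain ⟨x, hx, s, hs, h0, hv, he⟩ := (hZdef z).1 hz
    exact ⟨s, hs, h0, (hZdef _).2 ⟨1, A.one_mem, s, hs, h0, hv, by field_simp⟩, by rw [he]; exact hx⟩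

/-- every local ring is dominated by a valuation ring -/
theorem exists_val (O : Subalgebra k K) (hl : Lc O.toSubring) :
    ∃ V : ValuationSubring K, OverK k V ∧ Dominates V O := by
  have : IsLocalRing O.toSubring := by
    refine IsLocalRing.of_isUnit_or_isUnit_of_isUnit_add ?_
    rintro ⟨x, hx⟩ ⟨y, hy⟩ h
    obtain ⟨⟨u, v, huv, hvu⟩, hu⟩ := h
    have h1 : (x + y) * (v : K) = 1 := by
      have := congrArg Subtype.val huv
      rw [show u = (⟨x, hx⟩ : O.toSubring) + ⟨y, hy⟩ from hu] at this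
      simpa using this
    have h2 : x + y ≠ 0 := left_ne_zero_of_mul_eq_one h1
    have h3 : (x + y)⁻¹ = (v : K) := by
      rw [inv_eq_of_mul_eq_one_right h1]
    rcases hl x hx y hy h2 (by rw [h3]; exact v.2) with h4 | h4
    · left
      exact ⟨⟨⟨x, hx⟩, ⟨x⁻¹, h4.2⟩, Subtype.ext (mul_inv_cancel₀ h4.1),
        Subtype.ext (inv_mul_cancel₀ h4.1)⟩, rfl⟩
    · right
      exact ⟨⟨⟨y, hy⟩, ⟨y⁻¹, h4.2⟩, Subtype.ext (mul_inv_cancel₀ h4.1),
        Subtype.ext (inv_mul_cancel₀ h4.1)⟩, rfl⟩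
  obtain ⟨V, hV⟩ := LocalSubring.exists_le_valuationSubring (⟨O.toSubring⟩ : LocalSubring K)
  obtain ⟨hle, hloc⟩ := hV
  have hOV : ∀ x ∈ O, x ∈ V := fun x hx => hle hx
  refine ⟨V, fun c => hOV _ (O.algebraMap_mem c), hOV, ?_⟩
  intro x hx hxi
  by_cases hx0 : x = 0
  · rw [hx0, inv_zero]; exact O.zero_mem
  have h1 : IsUnit (Subring.inclusion hle (⟨x, hx⟩ : O.toSubring)) :=
    ⟨⟨⟨x, hle hx⟩, ⟨x⁻¹, hxi⟩, Subtype.ext (mul_inv_cancel₀ hx0),
      Subtype.ext (inv_mul_cancel₀ hx0)⟩, rfl⟩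
  obtain ⟨⟨u, v, huv, hvu⟩, hu⟩ := hloc.map_nonunit _ h1
  have h2 : x * (v : K) = 1 := by
    have := congrArg Subtype.val huv
    rw [show u = (⟨x, hx⟩ : O.toSubring) from hu] at this
    simpa using this
  rw [inv_eq_of_mul_eq_one_right h2]
  exact v.2

theorem mem_Spec_of_le {X : Set (Subalgebra k K)} {C : Set (Subalgebra k K)}
    (hX : X = {O | ∃ A ∈ C, O ∈ Spec A})
    (hsep : ∀ V : ValuationSubring K, OverK k V → ∀ O ∈ X, ∀ O' ∈ X,
      Dominates V O → Dominates V O' → O = O') {A O : Subalgebra k K} (hA : A ∈ C) (hO : O ∈ X)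
    (hAO : A ≤ O) : O ∈ Spec A := by
  obtain ⟨B, hB, hOB⟩ := (by rw [hX] at hO; exact hO : ∃ A ∈ C, O ∈ Spec A)
  obtain ⟨V, hV, hVO⟩ := exists_val O ((mem_Spec_iff B O).1 hOB).1
  obtain ⟨O', hO', hVO'⟩ := spec_of_dom A V (fun x hx => hVO.1 x (hAO hx))
  have : O = O' := hsep V hV O hO O' (by rw [hX]; exact ⟨A, hA, hO'⟩) hVO hVO'
  rw [this]
  exact hO'

/-- openness in terms of charts -/
theorem open_iff {X : Set (Subalgebra k K)} {C : Set (Subalgebra k K)}
    (hX : X = {O | ∃ A ∈ C, O ∈ Spec A}) (hFG : ∀ A ∈ C, A.FG)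
    (hsep : ∀ V : ValuationSubring K, OverK k V → ∀ O ∈ X, ∀ O' ∈ X,
      Dominates V O → Dominates V O' → O = O') (U : Set (Subalgebra k K)) :
    IsOpenIn X U ↔ U ⊆ X ∧ ∀ O ∈ U, ∃ A ∈ C, Is A O.toSubring ∧ ∃ f ∈ A, f ≠ 0 ∧ f⁻¹ ∈ O ∧
      ∀ O' : Subalgebra k K, Lc O'.toSubring → Is A O'.toSubring → f⁻¹ ∈ O' → O' ∈ U := by
  classical
  have hXm : ∀ O, O ∈ X ↔ ∃ A ∈ C, O ∈ Spec A := fun O => by rw [hX]; rfl
  constructor
  · rintro ⟨hUX, h⟩
    refine ⟨hUX, fun O hO => ?_⟩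
    obtain ⟨F, hF, hFO, hFU⟩ := h O hO
    obtain ⟨A, hA, hOA⟩ := (hXm O).1 (hUX hO)
    have hIs := ((mem_Spec_iff A O).1 hOA).2
    have h1 : ∀ x ∈ F, ∃ s ∈ A, s ≠ 0 ∧ s⁻¹ ∈ O ∧ x * s ∈ A := fun x hx => hIs.2 x (hFO x hx)
    choose! s hsA hs0 hsO hxs using h1
    lift F to Finset K using hF
    refine ⟨A, hA, hIs, ∏ x ∈ F, s x, Subalgebra.prod_mem A (fun x hx => hsA x hx),
      Finset.prod_ne_zero_iff.mpr (fun x hx => hs0 x hx), ?_, ?_⟩
    · rw [← Finset.prod_inv_distrib]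
      exact Subalgebra.prod_mem O (fun x hx => hsO x hx)
    · intro O' hl' hI' hf'
      apply hFU O' ((hXm O').2 ⟨A, hA, (mem_Spec_iff A O').2 ⟨hl', hI'⟩⟩)
      intro x hx
      have hx0 := hs0 x hx
      have h2 : x = (x * s x) * ((∏ y ∈ F.erase x, s y) * (∏ y ∈ F, s y)⁻¹) := by
        rw [← Finset.mul_prod_erase F s hx]
        have h3 : (∏ y ∈ F.erase x, s y) ≠ 0 :=
          Finset.prod_ne_zero_iff.mpr (fun y hy => hs0 y (Finset.mem_of_mem_erase hy))
        field_simp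
      rw [h2]
      refine O'.mul_mem (hI'.1 _ (hxs x hx)) (O'.mul_mem (hI'.1 _ ?_) hf')
      exact Subalgebra.prod_mem A (fun y hy => hsA y (Finset.mem_of_mem_erase hy))
  · rintro ⟨hUX, h⟩
    refine ⟨hUX, fun O hO => ?_⟩
    obtain ⟨A, hA, hIs, f, hf, hf0, hfO, hfU⟩ := h O hO
    obtain ⟨S, hS⟩ := hFG A hA
    refine ⟨(S : Set K) ∪ {f⁻¹}, S.finite_toSet.union (Set.finite_singleton _), ?_, ?_⟩
    · rintro x (hx | hx)
      · exact hIs.1 x (by rw [← hS]; exact Algebra.subset_adjoin hx)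
      · rw [Set.mem_singleton_iff.1 hx]
        exact hfO
    · intro O' hO' hxO'
      have hAO' : A ≤ O' := by
        rw [← hS]
        exact Algebra.adjoin_le (fun x hx => hxO' x (Or.inl hx))
      have h1 := (mem_Spec_iff A O').1 (mem_Spec_of_le hX hsep hA hO' hAO')
      exact hfU O' h1.1 h1.2 (hxO' _ (Or.inr rfl))

theorem adj_eq {n : ℕ} (y : Fin (n + 1) → K) (c : K) :
    adj (Submodule.span k (Set.range y)) c = Algebra.adjoin k (Set.range fun i => y i / c) := by
  apply le_antisymm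
  · apply Algebra.adjoin_le
    rintro z ⟨l, hl, rfl⟩
    show l / c ∈ Algebra.adjoin k (Set.range fun i => y i / c)
    induction hl using Submodule.span_induction with
    | mem x hx =>
      obtain ⟨i, rfl⟩ := hx
      exact Algebra.subset_adjoin ⟨i, rfl⟩
    | zero => rw [zero_div]; exact Subalgebra.zero_mem _
    | add x y _ _ hx hy => rw [add_div]; exact Subalgebra.add_mem _ hx hy
    | smul a x _ hx =>
      rw [smul_div_assoc]
      exact Subalgebra.smul_mem _ hx a
  · apply Algebra.adjoin_le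
    rintro z ⟨i, rfl⟩
    exact Algebra.subset_adjoin ⟨y i, Submodule.subset_span ⟨i, rfl⟩, rfl⟩

theorem adj_of_proj {n : ℕ} (y : Fin (n + 1) → K) (O : Subalgebra k K) (hO : O ∈ Proj k y) :
    ∃ z ∈ Submodule.span k (Set.range y), z ≠ 0 ∧
      Is (adj (Submodule.span k (Set.range y)) z) O.toSubring := by
  obtain ⟨j, hj, h⟩ := hO
  refine ⟨y j, Submodule.subset_span ⟨j, rfl⟩, hj, ?_⟩
  rw [adj_eq]
  exact ((mem_Spec_iff _ O).1 h).2

theorem proj_of_adj (L : Submodule k K) (hL : L.FG) :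
    ∃ (n : ℕ) (y : Fin (n + 1) → K), ∀ O : Subalgebra k K, Lc O.toSubring →
      (∃ z ∈ L, z ≠ 0 ∧ Is (adj L z) O.toSubring) → O ∈ Proj k y := by
  classical
  obtain ⟨T, hT, hTO⟩ := finite_denoms L hL
  obtain ⟨S, hS⟩ := hL
  let S' : Finset K := insert 0 (S ∪ T)
  have hcard : 0 < S'.card := Finset.card_pos.2 ⟨0, Finset.mem_insert_self _ _⟩
  obtain ⟨n, hn⟩ : ∃ n, S'.card = n + 1 := ⟨S'.card - 1, by omega⟩
  let e : Fin (n + 1) ≃ S' := (S'.equivFinOfCardEq hn).symm
  refine ⟨n, fun i => (e i : K), ?_⟩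
  have hrange : Set.range (fun i => (e i : K)) = (S' : Set K) := by
    ext x
    constructor
    · rintro ⟨i, rfl⟩
      exact (e i).2
    · intro hx
      exact ⟨e.symm ⟨x, hx⟩, by simp⟩
  have hspan : Submodule.span k (Set.range (fun i => (e i : K))) = L := by
    rw [hrange]
    apply le_antisymm
    · apply Submodule.span_le.2
      intro x hx
      rcases Finset.mem_insert.1 hx with rfl | hx
      · exact L.zero_mem
      · rcases Finset.mem_union.1 hx with hx | hx
        · rw [← hS]; exact Submodule.subset_span hx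
        · exact (hT x hx).1
    · rw [← hS]
      apply Submodule.span_mono
      intro x hx
      exact Finset.mem_insert_of_mem (Finset.mem_union_left _ hx)
  intro O hl ⟨z, hz, hz0, hzO⟩
  obtain ⟨z', hz', hzO'⟩ := hTO O.toSubring hl z hz hz0 hzO
  have hzS : z' ∈ S' := Finset.mem_insert_of_mem (Finset.mem_union_right _ hz')
  refine ⟨e.symm ⟨z', hzS⟩, ?_, ?_⟩
  · simpa using (hT z' hz').2
  · have h1 : ((e (e.symm ⟨z', hzS⟩) : S') : K) = z' := by simp
    have h2 := adj_eq (k := k) (fun i => ((e i : S') : K)) z'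
    rw [hspan] at h2
    have h3 : O ∈ Spec (Algebra.adjoin k (Set.range fun i => ((e i : S') : K) / z')) := by
      rw [← h2]
      exact (mem_Spec_iff _ O).2 ⟨hl, hzO'⟩
    rw [← h1] at h3
    exact h3

theorem affine_qp (A : Subalgebra k K) (hA : A.FG) :
    ∃ (n : ℕ) (y : Fin (n + 1) → K), Spec A ⊆ Proj k y := by
  classical
  obtain ⟨S, hS⟩ := hA
  let L : Submodule k K := Submodule.span k (insert 1 (S : Set K))
  have hL : L.FG := Submodule.fg_span (S.finite_toSet.insert 1)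
  obtain ⟨n, y, hy⟩ := proj_of_adj L hL
  refine ⟨n, y, fun O hO => ?_⟩
  obtain ⟨hl, hI⟩ := (mem_Spec_iff A O).1 hO
  refine hy O hl ⟨1, Submodule.subset_span (Set.mem_insert _ _), one_ne_zero, ?_⟩
  have hadj : adj L (1 : K) = A := by
    apply le_antisymm
    · apply Algebra.adjoin_le
      rintro z ⟨l, hl, rfl⟩
      rw [div_one]
      have : L ≤ Subalgebra.toSubmodule A := by
        apply Submodule.span_le.2
        rintro x (rfl | hx)
        · exact A.one_mem
        · show x ∈ A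
          rw [← hS]
          exact Algebra.subset_adjoin hx
      exact this hl
    · rw [← hS]
      apply Algebra.adjoin_le
      intro x hx
      exact Algebra.subset_adjoin ⟨x, Submodule.subset_span (Set.mem_insert_of_mem _ hx),
        (div_one x).symm⟩
  rw [hadj]
  exact hI

/-- all local rings have fraction field `K` -/
theorem frac_of {A O : Subalgebra k K} (hA : ∀ x : K, ∃ a ∈ A, ∃ s ∈ A, s ≠ 0 ∧ x = a / s)
    (hAO : A ≤ O) : ∀ z : K, ∃ a ∈ O, ∃ b ∈ O, b ≠ 0 ∧ z = a / b := fun z => by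
  obtain ⟨a, ha, s, hs, h0, h⟩ := hA z
  exact ⟨a, hAO ha, s, hAO hs, h0, h⟩

theorem noeth_of_fg (A : Subalgebra k K) (h : A.FG) : IsNoetherianRing A := by
  have : Algebra.FiniteType k A := A.fg_iff_finiteType.1 h
  exact Algebra.FiniteType.isNoetherianRing k A

/-- **Reduction.** -/
theorem red (X : Set (Subalgebra k K)) (C : Set (Subalgebra k K)) (hCf : C.Finite)
    (hFG : ∀ A ∈ C, A.FG) (hfr : ∀ A ∈ C, ∀ x : K, ∃ a ∈ A, ∃ s ∈ A, s ≠ 0 ∧ x = a / s)
    (hX : X = {O | ∃ A ∈ C, O ∈ Spec A})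
    (hsep : ∀ V : ValuationSubring K, OverK k V → ∀ O ∈ X, ∀ O' ∈ X,
      Dominates V O → Dominates V O' → O = O')
    (A0 : Subalgebra k K) (hA0 : A0 ∈ C) (R E : Subalgebra k K) (hR : R ∈ Spec A0) (hE : E ∈ X)
    (hnum : ∀ L : Submodule k K, L.FG →
      ¬ ((∃ y ∈ L, y ≠ 0 ∧ Is (adj L y) R.toSubring) ∧
         (∃ y ∈ L, y ≠ 0 ∧ Is (adj L y) E.toSubring)))
    (hgen : ∀ O ∈ X, E ≤ O → O ≠ E → O = ⊤ ∨ ∃ V : ValuationSubring K, V.toSubring = O.toSubring ∧
      ∀ a ∈ V, a⁻¹ ∉ V → ∀ z : K, ∃ n : ℕ, a ^ n * z ∈ V) :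
    ¬ IsProjective X ∧ ∃ U, IsMaxQPOpen X U ∧ IsGenericPtOfComponent X U E := by
  have hXm : ∀ O, O ∈ X ↔ ∃ A ∈ C, O ∈ Spec A := fun O => by rw [hX]; rfl
  have hRX : R ∈ X := (hXm R).2 ⟨A0, hA0, hR⟩
  have hnumP : ∀ (n : ℕ) (y : Fin (n + 1) → K), R ∈ Proj k y → E ∉ Proj k y := by
    intro n y h1 h2
    exact hnum _ (Submodule.fg_span (Set.finite_range y)) ⟨adj_of_proj y R h1, adj_of_proj y E h2⟩
  refine ⟨?_, ?_⟩
  · rintro ⟨n, y, hy⟩
    exact hnumP n y (hy ▸ hRX) (hy ▸ hE)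
  -- the maximal open
  obtain ⟨n0, y0, hy0⟩ := affine_qp A0 (hFG A0 hA0)
  have hopen := open_iff hX hFG hsep
  have hA0open : IsOpenIn X (Spec A0) := by
    rw [hopen]
    refine ⟨fun O hO => (hXm O).2 ⟨A0, hA0, hO⟩, fun O hO => ?_⟩
    obtain ⟨hl, hI⟩ := (mem_Spec_iff A0 O).1 hO
    exact ⟨A0, hA0, hI, 1, A0.one_mem, one_ne_zero, by simp,
      fun O' h1 h2 _ => (mem_Spec_iff A0 O').2 ⟨h1, h2⟩⟩
  let P : Set (Subring K) → Prop := fun V => ∃ U, V = Subalgebra.toSubring '' U ∧ IsQPOpen X U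
  have himg : ∀ (U : Set (Subalgebra k K)) (O : Subalgebra k K),
      O.toSubring ∈ Subalgebra.toSubring '' U ↔ O ∈ U := by
    intro U O
    constructor
    · rintro ⟨O', hO', h⟩
      rw [← toSubring_inj h]
      exact hO'
    · exact fun h => ⟨O, h, rfl⟩
  have hOp : ∀ U : Set (Subalgebra k K), IsOpenIn X U → Op C (Subalgebra.toSubring '' U) := by
    intro U hU
    rw [hopen] at hU
    rintro _ ⟨O, hO, rfl⟩
    obtain ⟨A, hA, hI, f, hf, hf0, hfO, hfU⟩ := hU.2 O hO
    refine ⟨A, hA, hI, f, hf, hf0, hfO, fun O' h1 h2 h3 => ?_⟩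
    obtain ⟨O'', rfl⟩ := exists_subalg A O' h2
    exact ⟨O'', hfU O'' h1 h2 h3, rfl⟩
  have hLc : ∀ O ∈ X, Lc O.toSubring := fun O hO => by
    obtain ⟨A, hA, h⟩ := (hXm O).1 hO
    exact ((mem_Spec_iff A O).1 h).1
  obtain ⟨W, hUW, ⟨U, rfl, hUqp⟩, hmax⟩ := exists_max C hCf (fun A hA => noeth_of_fg A (hFG A hA)) P
    (by
      rintro _ ⟨U, rfl, hU⟩ _ ⟨O, hO, rfl⟩
      exact hLc O (hU.1.1 hO))
    (by
      rintro _ ⟨U, rfl, hU⟩
      exact hOp U hU.1)
    (Subalgebra.toSubring '' (Spec A0)) ⟨Spec A0, rfl, hA0open, n0, y0, hy0⟩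
  have hmax' : ∀ U' : Set (Subalgebra k K), IsQPOpen X U' → U ⊆ U' → U' = U := by
    intro U' hU' hUU'
    have h := hmax (Subalgebra.toSubring '' U') ⟨U', rfl, hU'⟩ (Set.image_mono hUU')
    ext O
    rw [← himg U' O, h, himg U O]
  have hRU : R ∈ U := (himg U R).1 (hUW ((himg _ R).2 hR))
  obtain ⟨n, y, hUy⟩ := hUqp.2
  have hEU : E ∉ U := fun h => hnumP n y (hUy hRU) (hUy h)
  refine ⟨U, ⟨hUqp, hmax'⟩, hE, hEU, ?_⟩
  intro O hO hOU hEO
  by_contra hne
  rcases hgen O hO hEO hne with h | ⟨V, hVO, harch⟩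
  · -- the generic point lies in every nonempty open set
    apply hOU
    obtain ⟨F, hF, hFR, hFU⟩ := hUqp.1.2 R hRU
    exact hFU O hO (fun x _ => by rw [h]; exact Algebra.mem_top)
  · apply hOU
    have hOpU := (hopen U).1 hUqp.1
    have hkey := lemmaA (Subalgebra.toSubring '' X) C hFG
      (by
        intro O'
        constructor
        · rintro ⟨O'', hO'', rfl⟩
          obtain ⟨A, hA, h⟩ := (hXm O'').1 hO''
          obtain ⟨h1, h2⟩ := (mem_Spec_iff A O'').1 h
          exact ⟨h1, A, hA, h2⟩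
        · rintro ⟨h1, A, hA, h2⟩
          obtain ⟨O'', rfl⟩ := exists_subalg A O' h2
          exact ⟨O'', (hXm O'').2 ⟨A, hA, (mem_Spec_iff A O'').2 ⟨h1, h2⟩⟩, rfl⟩)
      (by
        rintro _ ⟨O', hO', rfl⟩
        obtain ⟨A, hA, h⟩ := (hXm O').1 hO'
        exact frac_of (hfr A hA) (((mem_Spec_iff A O').1 h).2.1))
      (Subalgebra.toSubring '' U) (Set.image_mono hUqp.1.1) ⟨_, R, hRU, rfl⟩
      (hOp U hUqp.1) (Submodule.span k (Set.range y)) (Submodule.fg_span (Set.finite_range y))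
      (by
        rintro _ ⟨O', hO', rfl⟩
        exact adj_of_proj y O' (hUy hO'))
      V (by
        intro c
        have : algebraMap k K c ∈ V.toSubring := by
          rw [hVO]
          exact O.algebraMap_mem c
        exact this)
      (by rw [hVO]; exact ⟨O, hO, rfl⟩)
      (by rw [hVO]; exact fun h => hOU ((himg U O).1 h))
      harch
      (by
        rintro _ ⟨O', hO', rfl⟩ hdom
        rw [hVO]
        congr 1
        refine hsep V ?_ O' hO' O hO hdom ?_
        · intro c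
          have : algebraMap k K c ∈ V.toSubring := by
            rw [hVO]
            exact O.algebraMap_mem c
          exact this
        · refine ⟨fun x hx => ?_, fun x _ hxi => ?_⟩
          · show x ∈ V.toSubring
            rw [hVO]; exact hx
          · have : x⁻¹ ∈ V.toSubring := hxi
            rw [hVO] at this; exact this)
    obtain ⟨L', hL', hUL', A, hA, hAV, f, hf, hf0, hfV, hfL'⟩ := hkey
    obtain ⟨n', y', hy'⟩ := proj_of_adj L' hL'
    -- the bigger open
    let U' : Set (Subalgebra k K) := U ∪ {O' | O' ∈ Spec A ∧ f⁻¹ ∈ O'}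
    have hU' : IsQPOpen X U' := by
      refine ⟨?_, n', y', ?_⟩
      · rw [hopen]
        refine ⟨?_, ?_⟩
        · rintro O' (h | h)
          · exact hUqp.1.1 h
          · exact (hXm O').2 ⟨A, hA, h.1⟩
        · rintro O' (h | h)
          · obtain ⟨B, hB, hI, g, hg, hg0, hgO, hgU⟩ := hOpU.2 O' h
            exact ⟨B, hB, hI, g, hg, hg0, hgO, fun O'' h1 h2 h3 => Or.inl (hgU O'' h1 h2 h3)⟩
          · obtain ⟨h1, h2⟩ := (mem_Spec_iff A O').1 h.1
            exact ⟨A, hA, h2, f, hf, hf0, h.2, fun O'' h1 h2 h3 =>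
              Or.inr ⟨(mem_Spec_iff A O'').2 ⟨h1, h2⟩, h3⟩⟩
      · rintro O' (h | h)
        · exact hy' O' (hLc O' (hUqp.1.1 h)) (hUL' _ ⟨O', h, rfl⟩)
        · obtain ⟨h1, h2⟩ := (mem_Spec_iff A O').1 h.1
          exact hy' O' h1 (hfL' _ h1 h2 h.2)
    have hUU' := hmax' U' hU' Set.subset_union_left
    rw [← hUU']
    right
    refine ⟨(mem_Spec_iff A O).2 ⟨hLc O hO, by rw [← hVO]; exact hAV⟩, ?_⟩
    have : f⁻¹ ∈ V.toSubring := hfV
    rw [hVO] at this
    exact this

end D71
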