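import Mathlib

/-!
# Varieties as models (Zariski, Chevalley)

`k` is a field, `K` an extension field.  An integral separated scheme of finite type over `k`
with function field `K` is recorded by the set of its local rings, which are `k`-subalgebras of
`K` (Zariski-Samuel, Commutative Algebra II, Ch. VI, sections 17-18: models).
-/

set_option autoImplicit false

namespace D71

variable {k K : Type} [Field k] [Field K] [Algebra k K]

/-- The set of local rings of the affine variety `Spec A`, where `A` is a `k`-subalgebra of `K`: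
the localisations `A_P ⊆ K` at the prime ideals `P` of `A`. -/
def Spec (A : Subalgebra k K) : Set (Subalgebra k K) :=
  {O | ∃ P : Ideal A, P.IsPrime ∧ ∀ x : K, x ∈ O ↔ ∃ a s : A, s ∉ P ∧ x * (s : K) = (a : K)}

/-- The valuation ring `V` of `K` dominates the local ring `O ⊆ K`: `O ⊆ V` and every element of
`O` which is a unit of `V` is a unit of `O`. -/
def Dominates (V : ValuationSubring K) (O : Subalgebra k K) : Prop :=
  (∀ x ∈ O, x ∈ V) ∧ ∀ x ∈ O, x⁻¹ ∈ V → x⁻¹ ∈ O

/-- The valuation ring `V` contains the ground field. -/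
def OverK (k : Type) {K : Type} [Field k] [Field K] [Algebra k K] (V : ValuationSubring K) :
    Prop :=
  ∀ c : k, algebraMap k K c ∈ V

/-- `X` is (the set of local rings of) an integral separated scheme of finite type over `k` with
function field `K`, of dimension `3`: a finite union of affine models `Spec A`, where each `A` is
a finitely generated `k`-algebra with fraction field `K`, such that every valuation ring of `K/k`
dominates at most one of the local rings (separatedness). -/
structure IsThreefold (X : Set (Subalgebra k K)) : Prop where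
  dim_eq : Algebra.trdeg k K = 3
  charts : ∃ C : Set (Subalgebra k K), C.Finite ∧ C.Nonempty ∧
    (∀ A ∈ C, A.FG ∧ ∀ x : K, ∃ a ∈ A, ∃ s ∈ A, s ≠ 0 ∧ x = a / s) ∧
    X = {O | ∃ A ∈ C, O ∈ Spec A}
  separated : ∀ V : ValuationSubring K, OverK k V → ∀ O ∈ X, ∀ O' ∈ X,
    Dominates V O → Dominates V O' → O = O'

/-- `X` is complete (proper over `k`): every valuation ring of `K/k` dominates a local ring of
`X`. -/
def IsComplete (X : Set (Subalgebra k K)) : Prop :=
  ∀ V : ValuationSubring K, OverK k V → ∃ O ∈ X, Dominates V O

/-- `O` is a closed point of `X`: the closure of a point `O` of `X` consists of the `O' ∈ X` with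
`O' ⊆ O`. -/
def IsClosedPt (X : Set (Subalgebra k K)) (O : Subalgebra k K) : Prop :=
  O ∈ X ∧ ∀ O' ∈ X, O' ≤ O → O' = O

/-- `X` is smooth over `k` (`k` algebraically closed): the local ring of `X` at each closed point
is a regular local ring. -/
def IsSmooth (X : Set (Subalgebra k K)) : Prop :=
  ∀ O : Subalgebra k K, IsClosedPt X O → IsRegularLocalRing O

/-- Zariski open subsets of `X` (the topology generated by the sets `{O ∈ X | x ∈ O}`, the
domains of definition of the rational functions `x ∈ K`). -/
def IsOpenIn (X U : Set (Subalgebra k K)) : Prop :=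
  U ⊆ X ∧ ∀ O ∈ U, ∃ F : Set K, F.Finite ∧ (∀ x ∈ F, x ∈ O) ∧
    ∀ O' ∈ X, (∀ x ∈ F, x ∈ O') → O' ∈ U

/-- The set of local rings of the projective variety with generic point `(y₀ : ... : yₙ)`: the
union of the affine models `Spec k[y₀/yⱼ, ..., yₙ/yⱼ]`. -/
def Proj (k : Type) {K : Type} [Field k] [Field K] [Algebra k K] {n : ℕ} (y : Fin (n + 1) → K) :
    Set (Subalgebra k K) :=
  {O | ∃ j, y j ≠ 0 ∧ O ∈ Spec (Algebra.adjoin k (Set.range fun i => y i / y j))}

/-- `U` is a quasi-projective open subset of `X`. -/
def IsQPOpen (X U : Set (Subalgebra k K)) : Prop :=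
  IsOpenIn X U ∧ ∃ (n : ℕ) (y : Fin (n + 1) → K), U ⊆ Proj k y

/-- `X` is projective. -/
def IsProjective (X : Set (Subalgebra k K)) : Prop :=
  ∃ (n : ℕ) (y : Fin (n + 1) → K), X = Proj k y

/-- `U` is a maximal quasi-projective open subset of `X`. -/
def IsMaxQPOpen (X U : Set (Subalgebra k K)) : Prop :=
  IsQPOpen X U ∧ ∀ U' : Set (Subalgebra k K), IsQPOpen X U' → U ⊆ U' → U' = U

/-- `O` is the generic point of an irreducible component of the closed subset `X \ U` of `X`:
`O` lies in `X \ U` and no other point of `X \ U` specialises to `O`. -/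
def IsGenericPtOfComponent (X U : Set (Subalgebra k K)) (O : Subalgebra k K) : Prop :=
  O ∈ X ∧ O ∉ U ∧ ∀ O' ∈ X, O' ∉ U → O ≤ O' → O' = O

end D71
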