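import Pool.Agent.D71.Defs

set_option autoImplicit false

namespace D71

/-- The main statement (over the complex numbers). -/
def Main : Prop :=
  ∃ (K : Type) (_ : Field K) (_ : Algebra ℂ K) (X : Set (Subalgebra ℂ K)),
    IsThreefold X ∧ IsComplete X ∧ IsSmooth X ∧ ¬ IsProjective X ∧
    ∃ U : Set (Subalgebra ℂ K), IsMaxQPOpen X U ∧
      ∃ (O : Subalgebra ℂ K) (_ : IsLocalRing O), IsGenericPtOfComponent X U O ∧
        Algebra.trdeg ℂ (IsLocalRing.ResidueField O) = 1 ∧
        IsEmpty (IsLocalRing.ResidueField O ≃ₐ[ℂ] RatFunc ℂ)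

end D71
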