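import Pool.Agent.D71.Bridge

set_option autoImplicit false

namespace D71

open ZA

/-- the maximal ideal at each closed point is generated by three elements -/
def IsSmooth3 {k K : Type} [Field k] [Field K] [Algebra k K] (X : Set (Subalgebra k K)) : Prop :=
  ∀ O : Subalgebra k K, IsClosedPt X O →
    ∃ t₁ t₂ t₃ : O, Ideal.span {t₁, t₂, t₃} = {x : O | ¬ IsUnit x}

section closed

variable {K : Type} [Field K] [Algebra ℂ K]

/-- closed points have residue field `ℂ` (Nullstellensatz) -/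
theorem closed_pt {X C : Set (Subalgebra ℂ K)} (hX : X = {O | ∃ A ∈ C, O ∈ Spec A})
    (hFG : ∀ A ∈ C, A.FG) {O : Subalgebra ℂ K} (hO : IsClosedPt X O) :
    ∃ A ∈ C, O ∈ Spec A ∧ ∀ x ∈ O, ∃ c : ℂ, (x - algebraMap ℂ K c) = 0 ∨
      (x - algebraMap ℂ K c)⁻¹ ∉ O := by
  obtain ⟨hOX, hmin⟩ := hO
  obtain ⟨A, hA, hOA⟩ := (by rw [hX] at hOX; exact hOX : ∃ A ∈ C, O ∈ Spec A)
  refine ⟨A, hA, hOA, ?_⟩
  obtain ⟨P, hP, hPO⟩ := hOA
  obtain ⟨M, hM, hPM⟩ := Ideal.exists_le_maximal P hP.ne_top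
  have hMp : M.IsPrime := hM.isPrime
  have hne : ∀ s : A, s ∉ M → (s : K) ≠ 0 := fun s hs h0 => hs (by
    have : s = 0 := Subtype.ext h0
    rw [this]
    exact M.zero_mem)
  -- the localisation at M
  let O' : Subalgebra ℂ K :=
    { carrier := {x | ∃ a s : A, s ∉ M ∧ x * (s : K) = (a : K)}
      mul_mem' := by
        rintro x y ⟨a, s, hs, h⟩ ⟨b, t, ht, h'⟩
        refine ⟨a * b, s * t, fun h1 => (hMp.mem_or_mem h1).elim hs ht, ?_⟩
        push_cast
        rw [← h, ← h']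
        ring
      add_mem' := by
        rintro x y ⟨a, s, hs, h⟩ ⟨b, t, ht, h'⟩
        refine ⟨a * t + b * s, s * t, fun h1 => (hMp.mem_or_mem h1).elim hs ht, ?_⟩
        push_cast
        rw [← h, ← h']
        ring
      algebraMap_mem' := fun c =>
        ⟨algebraMap ℂ A c, 1, (Ideal.ne_top_iff_one M).1 hM.ne_top, by simp⟩ }
  have hO'def : ∀ x, x ∈ O' ↔ ∃ a s : A, s ∉ M ∧ x * (s : K) = (a : K) := fun x => Iff.rfl
  have hO'X : O' ∈ X := by
    rw [hX]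
    exact ⟨A, hA, M, hMp, hO'def⟩
  have hle : O' ≤ O := by
    intro x hx
    obtain ⟨a, s, hs, h⟩ := (hO'def x).1 hx
    exact (hPO x).2 ⟨a, s, fun h1 => hs (hPM h1), h⟩
  have heq := hmin O' hO'X hle
  -- the residue field of A at M is ℂ
  have hFT : Algebra.FiniteType ℂ A := A.fg_iff_finiteType.1 (hFG A hA)
  have hres : ∀ a : A, ∃ c : ℂ, a - algebraMap ℂ A c ∈ M := by
    let _ : Field (A ⧸ M) := Ideal.Quotient.field M
    have h1 : Algebra.FiniteType ℂ (A ⧸ M) :=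
      Algebra.FiniteType.of_surjective (Ideal.Quotient.mkₐ ℂ M) (Ideal.Quotient.mkₐ_surjective ℂ M)
    have h2 : Module.Finite ℂ (A ⧸ M) := finite_of_finite_type_of_isJacobsonRing ℂ (A ⧸ M)
    have h3 : Algebra.IsIntegral ℂ (A ⧸ M) := Algebra.IsIntegral.of_finite ℂ (A ⧸ M)
    intro a
    obtain ⟨c, hc⟩ := (IsAlgClosed.algebraMap_bijective_of_isIntegral (k := ℂ) (K := A ⧸ M)).2
      (Ideal.Quotient.mk M a)
    refine ⟨c, ?_⟩
    rw [← Ideal.Quotient.eq]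
    rw [← hc]
    rfl
  intro x hx
  rw [← heq] at hx ⊢
  obtain ⟨a, s, hs, h⟩ := (hO'def x).1 hx
  obtain ⟨e, he⟩ := hres a
  obtain ⟨d, hd⟩ := hres s
  have hd0 : d ≠ 0 := by
    rintro rfl
    apply hs
    simpa using hd
  refine ⟨e / d, ?_⟩
  by_contra hcon
  push Not at hcon
  obtain ⟨hc0, hcinv⟩ := hcon
  obtain ⟨b, t, ht, h'⟩ := (hO'def _).1 hcinv
  have hs0 := hne s hs
  have hd0' : algebraMap ℂ K d ≠ 0 := by
    simpa using hd0
  have hxe : x - algebraMap ℂ K (e / d) =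
      ((a : K) * algebraMap ℂ K d - algebraMap ℂ K e * s) / (s * algebraMap ℂ K d) := by
    rw [← h, map_div₀]
    field_simp
  have h1 : ((t : A) : K) * (s * algebraMap ℂ K d) =
      b * ((a : K) * algebraMap ℂ K d - algebraMap ℂ K e * s) := by
    rw [hxe] at h' hc0
    have h3 : ((a : K) * algebraMap ℂ K d - algebraMap ℂ K e * s) ≠ 0 := by
      intro h4
      rw [h4, zero_div] at hc0
      exact hc0 rfl
    rw [← h']
    generalize (a : K) * algebraMap ℂ K d - algebraMap ℂ K e * s = N at h3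
    rw [inv_div]
    field_simp
  have h2 : t * (s * algebraMap ℂ A d) = b * (a * algebraMap ℂ A d - algebraMap ℂ A e * s) :=
    Subtype.ext (by push_cast; exact h1)
  have h4 : a * algebraMap ℂ A d - algebraMap ℂ A e * s ∈ M := by
    have : a * algebraMap ℂ A d - algebraMap ℂ A e * s =
        (a - algebraMap ℂ A e) * algebraMap ℂ A d - algebraMap ℂ A e * (s - algebraMap ℂ A d) := by
      ring
    rw [this]
    exact M.sub_mem (M.mul_mem_right _ he) (M.mul_mem_left _ hd)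
  have h5 : t * (s * algebraMap ℂ A d) ∈ M := by
    rw [h2]
    exact M.mul_mem_left _ h4
  rcases hMp.mem_or_mem h5 with h6 | h6
  · exact ht h6
  · rcases hMp.mem_or_mem h6 with h7 | h7
    · exact hs h7
    · have : algebraMap ℂ A d⁻¹ * algebraMap ℂ A d ∈ M := M.mul_mem_left _ h7
      rw [← map_mul, inv_mul_cancel₀ hd0, map_one] at this
      exact hM.ne_top ((Ideal.eq_top_iff_one M).2 this)

theorem smooth_of {X C : Set (Subalgebra ℂ K)} (hX : X = {O | ∃ A ∈ C, O ∈ Spec A})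
    (hFG : ∀ A ∈ C, A.FG)
    (h2 : ∀ A ∈ C, ∀ O : Subalgebra ℂ K, Lc O.toSubring → Is A O.toSubring →
      (∀ x ∈ O, ∃ c : ℂ, (x - algebraMap ℂ K c) = 0 ∨ (x - algebraMap ℂ K c)⁻¹ ∉ O) →
      ∃ t : Fin 3 → K, (∀ i, t i ∈ O ∧ (t i = 0 ∨ (t i)⁻¹ ∉ O)) ∧
        ∀ x ∈ O, (x = 0 ∨ x⁻¹ ∉ O) → ∃ c : Fin 3 → K, (∀ i, c i ∈ O) ∧
          x = c 0 * t 0 + c 1 * t 1 + c 2 * t 2) :
    IsSmooth3 X := by
  intro O hO
  obtain ⟨A, hA, hOA, hres⟩ := closed_pt hX hFG hO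
  obtain ⟨hl, hI⟩ := (mem_Spec_iff A O).1 hOA
  obtain ⟨t, ht, hgen⟩ := h2 A hA O hl hI hres
  have hunit : ∀ x : O, ¬ IsUnit x ↔ ((x : K) = 0 ∨ (x : K)⁻¹ ∉ O) := by
    intro x
    rw [← not_iff_not, not_not]
    constructor
    · rintro ⟨⟨u, v, huv, hvu⟩, hu⟩
      have h3 : (x : K) * (v : K) = 1 := by
        have := congrArg Subtype.val huv
        rw [show u = x from hu] at this
        simpa using this
      rintro (h | h)
      · rw [h, zero_mul] at h3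
        exact zero_ne_one h3
      · apply h
        rw [inv_eq_of_mul_eq_one_right h3]
        exact v.2
    · intro h
      push Not at h
      exact ⟨⟨x, ⟨_, h.2⟩, Subtype.ext (mul_inv_cancel₀ h.1), Subtype.ext (inv_mul_cancel₀ h.1)⟩, rfl⟩
  refine ⟨⟨t 0, (ht 0).1⟩, ⟨t 1, (ht 1).1⟩, ⟨t 2, (ht 2).1⟩, ?_⟩
  ext x
  simp only [SetLike.mem_coe, Set.mem_ofPred_eq]
  constructor
  · intro hx hu
    rw [Ideal.mem_span_insert] at hx
    obtain ⟨c0, z, hz, rfl⟩ := hx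
    rw [Ideal.mem_span_insert] at hz
    obtain ⟨c1, w, hw, rfl⟩ := hz
    rw [Ideal.mem_span_singleton'] at hw
    obtain ⟨c2, rfl⟩ := hw
    -- locality: a sum of non-units is a non-unit
    have hsum : ∀ x y : O, ¬ IsUnit x → ¬ IsUnit y → ¬ IsUnit (x + y) := by
      intro x y hx hy hxy
      rw [hunit] at hx hy
      have h3 := (not_iff_not.2 (hunit (x + y))).1 (not_not.2 hxy)
      push Not at h3
      rcases hl x x.2 y y.2 (by simpa using h3.1) (by simpa using h3.2) with h4 | h4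
      · rcases hx with hx | hx
        · exact h4.1 hx
        · exact hx h4.2
      · rcases hy with hy | hy
        · exact h4.1 hy
        · exact hy h4.2
    have htu : ∀ i, ¬ IsUnit (⟨t i, (ht i).1⟩ : O) := fun i => (hunit _).2 (ht i).2
    have hmul : ∀ (c : O) i, ¬ IsUnit (c * (⟨t i, (ht i).1⟩ : O)) := fun c i h =>
      htu i (isUnit_of_mul_isUnit_right h)
    exact hsum _ _ (hmul c0 0) (hsum _ _ (hmul c1 1) (hmul c2 2)) hu
  · intro hx
    obtain ⟨c, hc, h⟩ := hgen x x.2 ((hunit x).1 hx)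
    have h3 : x = (⟨c 0, hc 0⟩ : O) * ⟨t 0, (ht 0).1⟩ + ((⟨c 1, hc 1⟩ : O) * ⟨t 1, (ht 1).1⟩ +
        (⟨c 2, hc 2⟩ : O) * ⟨t 2, (ht 2).1⟩) := by
      apply Subtype.ext
      push_cast
      rw [h]
      ring
    rw [h3]
    refine Ideal.add_mem _ (Ideal.mul_mem_left _ _ (Ideal.subset_span (by simp)))
      (Ideal.add_mem _ (Ideal.mul_mem_left _ _ (Ideal.subset_span (by simp)))
        (Ideal.mul_mem_left _ _ (Ideal.subset_span (by simp))))

theorem isLocalRing_of_lc (E : Subalgebra ℂ K) (hl : Lc E.toSubring) : IsLocalRing E := by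
  refine IsLocalRing.of_isUnit_or_isUnit_of_isUnit_add ?_
  rintro ⟨x, hx⟩ ⟨y, hy⟩ h
  obtain ⟨⟨u, v, huv, hvu⟩, hu⟩ := h
  have h1 : (x + y) * (v : K) = 1 := by
    have := congrArg Subtype.val huv
    rw [show u = (⟨x, hx⟩ : E) + ⟨y, hy⟩ from hu] at this
    simpa using this
  have h2 : x + y ≠ 0 := left_ne_zero_of_mul_eq_one h1
  have h3 : (x + y)⁻¹ = (v : K) := by
    rw [inv_eq_of_mul_eq_one_right h1]
  rcases hl x hx y hy h2 (by rw [h3]; exact v.2) with h4 | h4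
  · left
    exact ⟨⟨⟨x, hx⟩, ⟨x⁻¹, h4.2⟩, Subtype.ext (mul_inv_cancel₀ h4.1),
      Subtype.ext (inv_mul_cancel₀ h4.1)⟩, rfl⟩
  · right
    exact ⟨⟨⟨y, hy⟩, ⟨y⁻¹, h4.2⟩, Subtype.ext (mul_inv_cancel₀ h4.1),
      Subtype.ext (inv_mul_cancel₀ h4.1)⟩, rfl⟩

theorem residue_of (E : Subalgebra ℂ K) (hl : Lc E.toSubring) {F : Type} [Field F] [Algebra ℂ F]
    (ψ : E →ₐ[ℂ] F) (hker : ∀ z : E, ((z : K) = 0 ∨ (z : K)⁻¹ ∉ E) → ψ z = 0)
    (htr : Algebra.trdeg ℂ F ≤ 1) (x y : E) (hy : Transcendental ℂ (ψ y))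
    (hc : 3 * (ψ x) ^ 2 - 4 * (ψ y) ^ 3 + 1 = 0)
    (hnr : ∀ x y : RatFunc ℂ, 3 * x ^ 2 - 4 * y ^ 3 + 1 = 0 → ∃ c : ℂ, y = RatFunc.C c) :
    ∃ _ : IsLocalRing E, Algebra.trdeg ℂ (IsLocalRing.ResidueField E) = 1 ∧
      IsEmpty (IsLocalRing.ResidueField E ≃ₐ[ℂ] RatFunc ℂ) := by
  have hloc := isLocalRing_of_lc E hl
  refine ⟨hloc, ?_⟩
  have hm : ∀ z : E, z ∈ IsLocalRing.maximalIdeal E → ψ z = 0 := by
    intro z hz
    apply hker
    rw [IsLocalRing.mem_maximalIdeal, mem_nonunits_iff] at hz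
    by_contra hcon
    push Not at hcon
    exact hz ⟨⟨z, ⟨_, hcon.2⟩, Subtype.ext (mul_inv_cancel₀ hcon.1),
      Subtype.ext (inv_mul_cancel₀ hcon.1)⟩, rfl⟩
  let φ : IsLocalRing.ResidueField E →ₐ[ℂ] F := Ideal.Quotient.liftₐ (IsLocalRing.maximalIdeal E) ψ hm
  have hφ : ∀ z : E, φ (IsLocalRing.residue E z) = ψ z := fun z => rfl
  have hinj : Function.Injective φ := φ.toRingHom.injective
  have htrans : Transcendental ℂ (IsLocalRing.residue E y) := by
    intro halg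
    apply hy
    rw [← hφ]
    exact IsAlgebraic.algHom φ halg
  have hT : Algebra.Transcendental ℂ (IsLocalRing.ResidueField E) := ⟨⟨_, htrans⟩⟩
  have hpos := trdeg_pos ℂ (IsLocalRing.ResidueField E)
  refine ⟨le_antisymm ((trdeg_le_of_injective φ hinj).trans htr)
    (Cardinal.one_le_iff_pos.2 hpos), ⟨fun e => ?_⟩⟩
  have hc' : 3 * (IsLocalRing.residue E x) ^ 2 - 4 * (IsLocalRing.residue E y) ^ 3 + 1 = 0 := by
    apply hinj
    rw [map_zero, ← hc]
    simp only [map_add, map_sub, map_mul, map_pow, map_ofNat, map_one, hφ]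
  obtain ⟨c, hcc⟩ := hnr (e (IsLocalRing.residue E x)) (e (IsLocalRing.residue E y)) (by
    rw [← map_zero e, ← hc']
    simp only [map_add, map_sub, map_mul, map_pow, map_ofNat, map_one])
  apply htrans
  have h1 : IsAlgebraic ℂ (e (IsLocalRing.residue E y)) := by
    rw [hcc]
    exact isAlgebraic_algebraMap (R := ℂ) (A := RatFunc ℂ) c
  have h2 := IsAlgebraic.algHom (e.symm : RatFunc ℂ →ₐ[ℂ] IsLocalRing.ResidueField E) h1
  simpa using h2

end closed

end D71
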